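import Pool.Agent.Helper99.MKV.GoalsC
import Pool.Agent.Helper99.ERW.PlaneMain

/-!
# MKV, packet VIS: expected occupation
-/

open Finset

namespace Pool.Agent.Helper13.MKV

open Pool.Agent.Helper99.MKV Pool.Agent.Helper99.EXC Pool.Agent.Helper99.ERW

lemma nm_nonneg (x : Site 2) : 0 ≤ nm x := le_max_of_le_left (abs_nonneg _)

lemma La_translate (a : ℝ) (f : Site 2 → ℝ) (z x : Site 2) :
    La a (fun x => f (x - z)) x = La a f (x - z) := by
  unfold La
  rw [secondDiff_translate, secondDiff_translate]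

lemma Df_translate (f : Site 2 → ℝ) (z x : Site 2) :
    Df (fun x => f (x - z)) x = Df f (x - z) := by
  unfold Df
  rw [secondDiff_translate, secondDiff_translate]

lemma vec_abs_le (e : Dir 2) (l : Fin 2) : |vec e l| ≤ 1 := by
  unfold vec
  by_cases h : l = e.1
  · subst h
    cases e.2 <;> simp
  · simp [Pi.single_eq_of_ne h]

lemma mem_Bx {b k : ℕ} {x : Site 2} : x ∈ Bx b k ↔ ∀ l, |x l| ≤ ((b * 2 ^ k : ℕ) : ℤ) := by
  unfold Bx
  exact mem_box

lemma Bx_step {b k : ℕ} (hb : 1 ≤ b) {x : Site 2} (hx : x ∈ Bx b k) (e : Dir 2) : x + vec e ∈ Bx b (k + 1) := by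
  rw [mem_Bx] at hx ⊢
  intro l
  have h1 := hx l
  have h2 := vec_abs_le e l
  have h3 : |(x + vec e) l| ≤ |x l| + |vec e l| := abs_add_le _ _
  have h4 : 1 ≤ b * 2 ^ k := Nat.mul_pos hb (by positivity)
  have h5 : ((b * 2 ^ (k + 1) : ℕ) : ℤ) = ((b * 2 ^ k : ℕ) : ℤ) + ((b * 2 ^ k : ℕ) : ℤ) := by
    push_cast; ring
  have h6 : (1 : ℤ) ≤ ((b * 2 ^ k : ℕ) : ℤ) := by exact_mod_cast h4
  rw [h5]
  linarith

lemma Bx_mono {b k : ℕ} {x : Site 2} (hx : x ∈ Bx b k) : x ∈ Bx b (k + 1) := by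
  rw [mem_Bx] at hx ⊢
  intro l
  have h1 := hx l
  have h5 : ((b * 2 ^ (k + 1) : ℕ) : ℤ) = ((b * 2 ^ k : ℕ) : ℤ) + ((b * 2 ^ k : ℕ) : ℤ) := by
    push_cast; ring
  have h6 : (0 : ℤ) ≤ ((b * 2 ^ k : ℕ) : ℤ) := by positivity
  rw [h5]
  linarith

lemma Bx_sub {b k : ℕ} {x z : Site 2} (hx : x ∈ Bx b (k + 1)) (hz : z ∈ Bx b k) : x - z ∈ Bx b (k + 2) := by
  rw [mem_Bx] at hx hz ⊢
  intro l
  have h1 := hx l
  have h2 := hz l
  have h3 : |(x - z) l| ≤ |x l| + |z l| := by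
    have := abs_sub (x l) (z l)
    exact this
  have h5 : ((b * 2 ^ (k + 1) : ℕ) : ℤ) = 2 * ((b * 2 ^ k : ℕ) : ℤ) := by
    push_cast; ring
  have h7 : ((b * 2 ^ (k + 2) : ℕ) : ℤ) = 4 * ((b * 2 ^ k : ℕ) : ℤ) := by
    push_cast; ring
  have h6 : (0 : ℤ) ≤ ((b * 2 ^ k : ℕ) : ℤ) := by positivity
  rw [h7]
  rw [h5] at h1
  linarith

theorem VIS (hSMS : SMS_stmt) (hDRG : DRG_stmt) : VIS_stmt := by
  intro κ C b B hκ hC hb hB
  obtain ⟨C1, hC1, -, h2, -⟩ := hSMS b hb
  refine ⟨κ + 2 * C + 4 * B * C * C1, by positivity, ?_⟩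
  intro E ι _ U a S φ Φ k1 hD hS s hs N s0 g hg
  have hU := hD.ok
  have hC0 : 0 ≤ C := by linarith
  have hB0 : 0 ≤ B := by linarith
  have hs1 : (0 : ℝ) ≤ s := Nat.cast_nonneg s
  set Λ := Bx b (s + 1) with hΛ
  have hsum0 : 0 ≤ ∑ x ∈ Λ, g x := Finset.sum_nonneg fun x _ => hg x
  by_cases h0 : s0.1 ∉ Λ
  · rw [Rw_out Λ N _ h0]
    positivity
  rw [not_not] at h0
  -- the bound for one site
  have key : ∀ z ∈ Λ, Rw U Λ N (fun t => if t.1 = z then (1 : ℝ) else 0) s0 ≤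
      (κ + 2 * C + 4 * B * C * C1) * (s + 1) := by
    intro z hz
    have hVb : ∀ t : MSt E, |VV S Λ (fun y => Df φ (y - z)) t| ≤ B * C * C1 * (s + 2) := by
      intro t
      unfold VV
      have e1 : ∀ y ∈ Λ, |Df φ (y - z) * S y (t.2 y)| ≤ B * C * (1 / (1 + nm (y - z)) ^ 2) := by
        intro y _
        rw [abs_mul]
        have i1 := hS.hbd (y - z)
        have i2 := hD.bd y (t.2 y)
        have i3 : 0 ≤ C / (1 + nm (y - z)) ^ 2 := by positivity
        calc |Df φ (y - z)| * |S y (t.2 y)| ≤ C / (1 + nm (y - z)) ^ 2 * B :=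
              mul_le_mul i1 i2 (abs_nonneg _) i3
          _ = B * C * (1 / (1 + nm (y - z)) ^ 2) := by ring
      refine (Finset.abs_sum_le_sum_abs _ _).trans ((Finset.sum_le_sum e1).trans ?_)
      rw [← Finset.mul_sum]
      have e2 := h2 (s + 1) z
      push_cast at e2
      calc B * C * ∑ y ∈ Λ, 1 / (1 + nm (y - z)) ^ 2 ≤ B * C * (C1 * (s + 1 + 1)) :=
            mul_le_mul_of_nonneg_left e2 (by positivity)
        _ = B * C * C1 * (s + 2) := by ring
    set F : MSt E → ℝ := fun t => φ (t.1 - z) - VV S Λ (fun y => Df φ (y - z)) t with hF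
    have hdr : ∀ t : MSt E, t.1 ∈ Λ → Dr U F t = if t.1 = z then (1 : ℝ) else 0 := by
      intro t ht
      have e1 : Dr U F t = Dr U (fun t => φ (t.1 - z)) t - Dr U (VV S Λ (fun y => Df φ (y - z))) t :=
        Dr_sub (U := U) (fun t => φ (t.1 - z)) (VV S Λ (fun y => Df φ (y - z))) t
      have e2 : Dr U (fun t => φ (t.1 - z)) t = (if t.1 = z then (1 : ℝ) else 0) + dd U a t * Df φ (t.1 - z) := by
        unfold Dr
        have := stp_pos hU a (fun x => φ (x - z)) t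
        rw [La_translate, Df_translate, hS.lap] at this
        simp only [sub_eq_zero] at this
        rw [this]
        ring
      have e3 := (hDRG E ι U hU t).1 S Λ (fun y => Df φ (y - z))
      rw [if_pos ht, hD.ps] at e3
      rw [e1, e2, e3]
      unfold Pool.Agent.Helper99.MKV.dd
      ring
    have htel := tele_Dr (U := U) Λ N F s0
    rw [Rw_congr (U := U) Λ N hdr s0] at htel
    -- upper bound of the expectation
    have hup : Ex U Λ N F s0 ≤ κ * (s + 1) + C + B * C * C1 * (s + 2) := by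
      have hI : ∀ t : MSt E, t.1 ∈ Bx b (s + 2) → t.1 ∈ Λ → ∀ (i : ι) (e : Dir 2),
          (nxt U t i e).1 ∈ Bx b (s + 2) := by
        intro t _ ht i e
        exact Bx_step hb ht e
      have hle : ∀ t : MSt E, t.1 ∈ Bx b (s + 2) → F t ≤ κ * (s + 1) + C + B * C * C1 * (s + 2) := by
        intro t ht
        have j1 : t.1 - z ∈ Bx b (s + 1 + 2) := Bx_sub (k := s + 1) ht hz
        have j2 := hS.up (s + 1) (s + 1) (by omega) le_rfl _ j1
        have j3 := hS.ge (s + 1) (t.1 - z)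
        have j4 := (abs_le.1 (hVb t)).1
        push_cast at j2
        show φ (t.1 - z) - VV S Λ (fun y => Df φ (y - z)) t ≤ _
        linarith
      have := Ex_mono_inv (U := U) Λ hU N (F := F) (G := fun _ => κ * (s + 1) + C + B * C * C1 * (s + 2))
        (I := fun t => t.1 ∈ Bx b (s + 2)) hI hle s0 (Bx_mono h0)
      rwa [Ex_const Λ hU] at this
    have hlow : -C - B * C * C1 * (s + 2) ≤ F s0 := by
      have j1 := hS.plow (s0.1 - z)
      have j4 := (abs_le.1 (hVb s0)).2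
      show _ ≤ φ (s0.1 - z) - VV S Λ (fun y => Df φ (y - z)) s0
      linarith
    have hBC : 0 ≤ B * C * C1 := by positivity
    have k1' : B * C * C1 * (s + 2) ≤ 2 * (B * C * C1) * (s + 1) := by nlinarith
    have k2' : C ≤ C * (s + 1) := by nlinarith
    have : Rw U Λ N (fun t => if t.1 = z then (1 : ℝ) else 0) s0 = Ex U Λ N F s0 - F s0 := by linarith
    rw [this]
    nlinarith
  -- sum over the sites
  have hdec : ∀ t : MSt E, t.1 ∈ Λ → g t.1 = ∑ z ∈ Λ, g z * (if t.1 = z then (1 : ℝ) else 0) := by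
    intro t ht
    rw [Finset.sum_eq_single t.1]
    · rw [if_pos rfl, mul_one]
    · intro z _ hz
      rw [if_neg (Ne.symm hz), mul_zero]
    · intro h; exact absurd ht h
  rw [Rw_congr (U := U) Λ N (F := fun t => g t.1)
    (G := fun t => ∑ z ∈ Λ, g z * (if t.1 = z then (1 : ℝ) else 0)) hdec s0]
  rw [Rw_sum (U := U) Λ N Λ (fun z t => g z * (if t.1 = z then (1 : ℝ) else 0)) s0, Finset.mul_sum]
  refine Finset.sum_le_sum fun z hz => ?_
  rw [Rw_smul (U := U) Λ N (g z) (fun t => if t.1 = z then (1 : ℝ) else 0) s0]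
  have := mul_le_mul_of_nonneg_left (key z hz) (hg z)
  linarith

end Pool.Agent.Helper13.MKV
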